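import Pool.Agent.Work.MP_db9399_nc.Interface

/-!
# MP_db9399, THEOREM NC: helpful lemmas
-/

set_option autoImplicit false
set_option linter.unusedSectionVars false

namespace Pool.Agent.Work.MP_db9399_nc

open Finset Classical
open Pool.Agent.Work.MP_db9399_all (nb)
open _root_.MP_db9399_co

universe u

variable {V : Type u} [Fintype V]

theorem mem_nb {G : SimpleGraph V} {v w : V} : w ∈ nb G v ↔ G.Adj v w := by simp [nb]

theorem mem_nn {G : SimpleGraph V} {R : Finset V} {v w : V} :
    w ∈ nn G R v ↔ w ∈ R ∧ w ≠ v ∧ ¬ G.Adj v w := by simp [nn]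

theorem mem_cl {f : V → V} {i v : V} : v ∈ cl f i ↔ f v = i := by simp [cl]

theorem mem_out {G : SimpleGraph V} {f : V → V} {v w : V} :
    w ∈ out G f v ↔ G.Adj v w ∧ f w ≠ f v := by simp [out, mem_nb]

theorem mem_dirty {c : V → ℕ} {F : V → Finset ℕ} {b : ℕ} {v : V} :
    v ∈ dirty c F b ↔ c v = b ∨ b ∈ F v := by simp [dirty]

/-- degree = outer degree + inner degree -/
theorem deg_split (G : SimpleGraph V) (f : V → V) (v : V) :
    (nb G v).card = (out G f v).card + ((nb G v).filter (fun w => f w = f v)).card := by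
  have h := Finset.card_filter_add_card_filter_not (s := nb G v) (fun w => f w = f v)
  have h2 : (nb G v).filter (fun w => ¬ f w = f v) = out G f v := rfl
  rw [h2] at h
  omega

/-- size of the spot = 1 + inner degree + number of inner nonneighbours -/
theorem cl_split (G : SimpleGraph V) (f : V → V) (v : V) :
    (cl f (f v)).card =
      1 + ((nb G v).filter (fun w => f w = f v)).card + (nn G (cl f (f v)) v).card := by
  have h1 : cl f (f v) = insert v
      (((nb G v).filter (fun w => f w = f v)) ∪ nn G (cl f (f v)) v) := by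
    ext w
    simp only [Finset.mem_insert, Finset.mem_union, Finset.mem_filter, mem_nb, mem_nn, mem_cl]
    constructor
    · intro hw
      by_cases h : w = v
      · exact Or.inl h
      · by_cases h' : G.Adj v w
        · exact Or.inr (Or.inl ⟨h', hw⟩)
        · exact Or.inr (Or.inr ⟨hw, h, h'⟩)
    · rintro (h | h | h)
      · rw [h]
      · exact h.2
      · exact h.1
  have h2 : v ∉ ((nb G v).filter (fun w => f w = f v)) ∪ nn G (cl f (f v)) v := by
    simp [mem_nb, mem_nn]
  have h3 : Disjoint ((nb G v).filter (fun w => f w = f v)) (nn G (cl f (f v)) v) := by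
    rw [Finset.disjoint_left]
    intro w hw hw'
    rw [Finset.mem_filter, mem_nb] at hw
    rw [mem_nn] at hw'
    exact hw'.2.2 hw.1
  have h4 : (cl f (f v)).card = (insert v
      (((nb G v).filter (fun w => f w = f v)) ∪ nn G (cl f (f v)) v)).card := by
    rw [← h1]
  rw [h4, Finset.card_insert_of_notMem h2, Finset.card_union_of_disjoint h3]
  omega

section ctx
variable {G : SimpleGraph V} {d x : ℕ} {f hp : V → V} {c0 g : V → ℕ}

theorem NCtx.card_cl (h : NCtx G d x f hp c0 g) (v : V) : (cl f (f v)).card ≤ d + 1 + x := by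
  have h1 := cl_split G f v
  have h2 := deg_split G f v
  have h3 := h.deg v
  have h4 := h.inn v
  omega

/-- nonneighbours are forced: `|C| + out v ≤ d + 1 + nn v` -/
theorem NCtx.nn_ge (h : NCtx G d x f hp c0 g) (v : V) :
    (cl f (f v)).card + (out G f v).card ≤ d + 1 + (nn G (cl f (f v)) v).card := by
  have h1 := cl_split G f v
  have h2 := deg_split G f v
  have h3 := h.deg v
  omega

/-- a spot meets at most one component of `H` -/
theorem NCtx.pair (h : NCtx G d x f hp c0 g) {v w : V} (hf : f v = f w) (hv : hp v ≠ v)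
    (hw : hp w ≠ w) (hvw : v ≠ w) : w = hp v := by
  by_contra hne
  obtain ⟨hna, hz⟩ := h.hd.far v w hv hw hvw hne
  have hcard : 2 ≤ (cl f (f v)).card := by
    have : ({v, w} : Finset V) ⊆ cl f (f v) := by
      intro z hz
      rw [Finset.mem_insert, Finset.mem_singleton] at hz
      rcases hz with rfl | rfl
      · exact mem_cl.mpr rfl
      · exact mem_cl.mpr hf.symm
    have h2 := Finset.card_le_card this
    rwa [Finset.card_pair hvw] at h2
  have h1 : 2 * (nn G (cl f (f v)) v).card + 3 ≤ (cl f (f v)).card := by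
    rcases h.sz v with h | h
    · omega
    · exact h
  have h2 : 2 * (nn G (cl f (f v)) w).card + 3 ≤ (cl f (f v)).card := by
    rcases h.sz w with h | h
    · rw [← hf] at h; omega
    · rw [← hf] at h; exact h
  have h3 : cl f (f v) ⊆ nn G (cl f (f v)) v ∪ nn G (cl f (f v)) w := by
    intro z hzc
    rw [Finset.mem_union, mem_nn, mem_nn]
    by_cases hzv : z = v
    · subst hzv
      exact Or.inr ⟨hzc, hvw, fun h => hna h.symm⟩
    · by_cases ha : G.Adj v z
      · refine Or.inr ⟨hzc, ?_, ?_⟩
        · rintro rfl; exact hna ha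
        · intro h; exact hz z ⟨ha, h.symm⟩
      · exact Or.inl ⟨hzc, hzv, ha⟩
  have h4 := Finset.card_le_card h3
  have h5 := Finset.card_union_le (nn G (cl f (f v)) v) (nn G (cl f (f v)) w)
  omega

theorem NCtx.hcard (h : NCtx G d x f hp c0 g) (i : V) :
    ((cl f i).filter (fun v => hp v ≠ v)).card ≤ 2 := by
  by_cases hne : ((cl f i).filter (fun v => hp v ≠ v)).Nonempty
  · obtain ⟨v, hv⟩ := hne
    rw [Finset.mem_filter, mem_cl] at hv
    have : (cl f i).filter (fun v => hp v ≠ v) ⊆ {v, hp v} := by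
      intro w hw
      rw [Finset.mem_filter, mem_cl] at hw
      rw [Finset.mem_insert, Finset.mem_singleton]
      by_cases hvw : w = v
      · exact Or.inl hvw
      · exact Or.inr (h.pair (hv.1.trans hw.1.symm) hv.2 hw.2 (Ne.symm hvw))
    exact (Finset.card_le_card this).trans Finset.card_le_two
  · rw [Finset.not_nonempty_iff_eq_empty] at hne
    rw [hne]; simp

/-- the neighbours of `v` in `H` -/
theorem NCtx.hnb (h : NCtx G d x f hp c0 g) (v : V) :
    ((nb G v).filter (fun w => hp w ≠ w)).card ≤ 2 := by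
  by_cases hne : ((nb G v).filter (fun w => hp w ≠ w)).Nonempty
  · obtain ⟨a, ha⟩ := hne
    rw [Finset.mem_filter, mem_nb] at ha
    have : (nb G v).filter (fun w => hp w ≠ w) ⊆ {a, hp a} := by
      intro w hw
      rw [Finset.mem_filter, mem_nb] at hw
      rw [Finset.mem_insert, Finset.mem_singleton]
      by_cases hvw : w = a
      · exact Or.inl hvw
      · refine Or.inr ?_
        by_contra hcon
        exact (h.hd.far a w ha.2 hw.2 (Ne.symm hvw) hcon).2 v ⟨ha.1.symm, hw.1⟩
    exact (Finset.card_le_card this).trans Finset.card_le_two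
  · rw [Finset.not_nonempty_iff_eq_empty] at hne
    rw [hne]; simp

theorem mem_Fh {v : V} {α : ℕ} :
    α ∈ Fh G f hp c0 v ↔ ∃ w, G.Adj v w ∧ f w ≠ f v ∧ hp w ≠ w ∧ c0 w = α := by
  unfold Fh
  rw [Finset.mem_image]
  constructor
  · rintro ⟨w, hw, rfl⟩
    rw [Finset.mem_filter, mem_out] at hw
    exact ⟨w, hw.1.1, hw.1.2, hw.2, rfl⟩
  · rintro ⟨w, h1, h2, h3, rfl⟩
    exact ⟨w, Finset.mem_filter.mpr ⟨mem_out.mpr ⟨h1, h2⟩, h3⟩, rfl⟩

theorem NCtx.Fh_two (h : NCtx G d x f hp c0 g) (v : V) : (Fh G f hp c0 v).card ≤ 2 := by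
  refine Finset.card_image_le.trans ((Finset.card_le_card ?_).trans (h.hnb v))
  intro w hw
  rw [Finset.mem_filter, mem_out] at hw
  rw [Finset.mem_filter, mem_nb]
  exact ⟨hw.1.1, hw.2⟩

theorem Fh_out (v : V) : (Fh G f hp c0 v).card ≤ (out G f v).card :=
  Finset.card_image_le.trans (Finset.card_filter_le _ _)

end ctx

end Pool.Agent.Work.MP_db9399_nc
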