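import Mathlib
import Pool.Agent.Work.MP_db9399_co.Defs
import Pool.Agent.Work.MP_db9399_all.Interface

/-!
# MP_db9399, THEOREM NC: graphs partitioned into almost complete spots (owner helper46)

Definitions and the exact statement `Stmt_X` of every block. See `BLUEPRINT.md`.
-/

set_option autoImplicit false

namespace Pool.Agent.Work.MP_db9399_nc

open Finset Classical
open Pool.Agent.Work.MP_db9399_all (nb)
open _root_.MP_db9399_co

universe u

section defs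
variable {V : Type u} [Fintype V]

/-! ## Local notions -/

/-- the nonneighbours of `v` in `R` (without `v` itself) -/
noncomputable def nn (G : SimpleGraph V) (R : Finset V) (v : V) : Finset V :=
  R.filter (fun w => w ≠ v ∧ ¬ G.Adj v w)

/-- the vertices of colour `b` and the vertices with an outer edge of colour `b` -/
noncomputable def dirty (c : V → ℕ) (F : V → Finset ℕ) (b : ℕ) : Finset V :=
  univ.filter (fun v => c v = b ∨ b ∈ F v)

/-- `t` is a proper edge colouring of `G` with colours in `C` -/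
structure PEC (G : SimpleGraph V) (C : Finset ℕ) (t : V → V → ℕ) : Prop where
  sym : ∀ v w, t v w = t w v
  mem : ∀ v w, G.Adj v w → t v w ∈ C
  inj : ∀ v, Set.InjOn (t v) (nb G v : Set V)

/-- `K b`, `b ∈ E`, are edge disjoint matchings of `G`, given as involutions (`K b v = v` means
that `v` is not covered) -/
structure Mts (G : SimpleGraph V) (E : Finset ℕ) (K : ℕ → V → V) : Prop where
  inv : ∀ b ∈ E, ∀ v, K b (K b v) = v
  adj : ∀ b ∈ E, ∀ v, K b v ≠ v → G.Adj v (K b v)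
  dis : ∀ b ∈ E, ∀ b' ∈ E, b ≠ b' → ∀ v, K b v ≠ v → K b v ≠ K b' v

/-- A spot, given as a graph: `c` vertex colours, `F v` colours of the outer edges at `v`, `E` the
colours of the rounds, `hm` partner in `H` (`hm v = v`: no partner inside), `γ` colour of the edge
of `H` inside the spot. -/
structure Spot (G : SimpleGraph V) (d : ℕ) (c : V → ℕ) (F : V → Finset ℕ) (E : Finset ℕ)
    (hm : V → V) (γ : ℕ) : Prop where
  deg : ∀ v, (nb G v).card + (F v).card ≤ d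
  clt : ∀ v, c v < d + 2
  cF : ∀ v, c v ∉ F v
  cadj : ∀ v w, G.Adj v w → c v ≠ c w
  crep : ∀ v w, v ≠ w → c v = c w → c v ∈ E
  ctwo : ∀ b, (univ.filter (fun v => c v = b)).card ≤ 2
  Elt : ∀ b ∈ E, b < d + 2
  FE : ∀ v, F v ⊆ E
  fr : ∃ a, a < d + 2 ∧ a ∉ E ∧ ∀ v, c v ≠ a
  hinv : ∀ v, hm (hm v) = v
  hadj : ∀ v, hm v ≠ v → G.Adj v (hm v) ∧ γ ∈ E ∧ γ ≠ c v ∧ γ ∉ F v
  hcard : (univ.filter (fun v => hm v ≠ v)).card ≤ 2

/-- `t` is a colouring of the edges of the spot compatible with everything given -/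
structure Fills (G : SimpleGraph V) (d : ℕ) (c : V → ℕ) (F : V → Finset ℕ) (hm : V → V) (γ : ℕ)
    (t : V → V → ℕ) : Prop where
  sym : ∀ v w, t v w = t w v
  lt : ∀ v w, G.Adj v w → t v w < d + 2
  tc : ∀ v w, G.Adj v w → t v w ≠ c v
  tF : ∀ v w, G.Adj v w → t v w ∉ F v
  inj : ∀ v, Set.InjOn (t v) (nb G v : Set V)
  th : ∀ v, hm v ≠ v → t v (hm v) = γ

/-- the hypotheses of the local theorem LOC; `E` is the common palette of the outer edges -/
structure Loc (G : SimpleGraph V) (d x : ℕ) (c : V → ℕ) (F : V → Finset ℕ) (E : Finset ℕ)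
    (hm : V → V) (γ a : ℕ) : Prop where
  x1 : 1 ≤ x
  xd : 100000 * x ≤ d
  deg : ∀ v, (nb G v).card + (F v).card ≤ d
  inn : ∀ v, (nn G univ v).card ≤ x
  Fx : ∀ v, (F v).card ≤ x
  clt : ∀ v, c v < d + 2
  cF : ∀ v, c v ∉ F v
  cadj : ∀ v w, G.Adj v w → c v ≠ c w
  ctwo : ∀ b, (univ.filter (fun v => c v = b)).card ≤ 2
  rep : ((range (d + 2)).filter (fun b => (univ.filter (fun v => c v = b)).card = 2)).card ≤ x + 2
  cinj : Fintype.card V + 1 ≤ d → Function.Injective c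
  Ecard : E.card = 460 * x + 15
  Elt : ∀ b ∈ E, b < d + 2
  FE : ∀ v, F v ⊆ insert γ E
  γlt : γ < d + 2
  alt : a < d + 2
  aE : a ∉ E
  aγ : a ≠ γ
  ac : ∀ v, c v ≠ a
  hinv : ∀ v, hm (hm v) = v
  hadj : ∀ v, hm v ≠ v → G.Adj v (hm v) ∧ γ ≠ c v ∧ γ ∉ F v
  hcard : (univ.filter (fun v => hm v ≠ v)).card ≤ 2
  load : d ≤ 2 * Fintype.card V → ∀ b, 8 * (univ.filter (fun v => b ∈ F v)).card ≤
    Fintype.card V + 16
  par : d ≤ 2 * Fintype.card V →
    2 * (univ.filter (fun v => (F v).Nonempty)).card ≤ Fintype.card V ∨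
    (E.filter (fun b => Odd (univ \ dirty c F b).card)).card + 200 * x ≤ E.card

/-! ## Global notions -/

/-- the spot with name `i` (`f v` is the name of the spot of `v`) -/
noncomputable def cl (f : V → V) (i : V) : Finset V := univ.filter (fun v => f v = i)

/-- the neighbours of `v` outside its spot -/
noncomputable def out (G : SimpleGraph V) (f : V → V) (v : V) : Finset V :=
  (nb G v).filter (fun w => f w ≠ f v)

/-- The precoloured distance-3 matching: `hp v` is the partner of `v` (`hp v = v`: `v` is not a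
vertex of `H`), `c0 v` the colour of `v`, `g v` the colour of the edge of `H` at `v`. -/
structure HD (G : SimpleGraph V) (k : ℕ) (hp : V → V) (c0 g : V → ℕ) : Prop where
  inv : ∀ v, hp (hp v) = v
  adj : ∀ v, hp v ≠ v → G.Adj v (hp v)
  far : ∀ v w, hp v ≠ v → hp w ≠ w → v ≠ w → w ≠ hp v →
    ¬ G.Adj v w ∧ ∀ z, ¬ (G.Adj v z ∧ G.Adj z w)
  clt : ∀ v, hp v ≠ v → c0 v < k
  glt : ∀ v, hp v ≠ v → g v < k
  cc : ∀ v, hp v ≠ v → c0 v ≠ c0 (hp v)
  cg : ∀ v, hp v ≠ v → c0 v ≠ g v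
  gs : ∀ v, g (hp v) = g v

/-- the global hypotheses; `x` bounds the numbers of outer neighbours and of inner nonneighbours -/
structure NCtx (G : SimpleGraph V) (d x : ℕ) (f hp : V → V) (c0 g : V → ℕ) : Prop where
  x1 : 1 ≤ x
  xd : 100000 * x ≤ d
  deg : ∀ v, (nb G v).card ≤ d
  od : ∀ v, (out G f v).card ≤ x
  inn : ∀ v, (nn G (cl f (f v)) v).card ≤ x
  sz : ∀ v, (cl f (f v)).card ≤ 1 ∨
    2 * (nn G (cl f (f v)) v).card + 3 ≤ (cl f (f v)).card
  hd : HD G (d + 2) hp c0 g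

/-- the colours of the neighbours of `v` in `H` outside the spot of `v` -/
noncomputable def Fh (G : SimpleGraph V) (f hp : V → V) (c0 : V → ℕ) (v : V) : Finset ℕ :=
  ((out G f v).filter (fun w => hp w ≠ w)).image c0

/-- the graph of the edges between different spots which are not in `H` -/
def yg (G : SimpleGraph V) (f hp : V → V) : SimpleGraph V where
  Adj v w := G.Adj v w ∧ f v ≠ f w ∧ hp v ≠ w ∧ hp w ≠ v
  symm := ⟨fun _ _ h => ⟨h.1.symm, h.2.1.symm, h.2.2.2, h.2.2.1⟩⟩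
  loopless := ⟨fun v h => G.loopless.irrefl v h.1⟩

/-- The plan of the spot `i`: unused colours `U`, among them `a`, and classes of size at most two
(`cls` maps a vertex to the representative of its class). -/
structure Plan (G : SimpleGraph V) (d x : ℕ) (f hp : V → V) (c0 g : V → ℕ) (E : Finset ℕ) (i : V)
    (U : Finset ℕ) (a : ℕ) (cls : V → V) : Prop where
  aU : a ∈ U
  alt : a < d + 2
  aE : a ∉ E
  ah : ∀ v ∈ cl f i, hp v ≠ v → a ≠ g v ∧ a ≠ c0 v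
  Ucard : U.card ≤ 3
  heavy : ∀ α, α ∉ U →
    4 * ((cl f i).filter (fun v => hp v = v ∧ α ∈ Fh G f hp c0 v)).card ≤ 3 * d
  cmem : ∀ v ∈ cl f i, cls v ∈ cl f i ∧ cls (cls v) = cls v
  cind : ∀ v ∈ cl f i, ∀ w ∈ cl f i, v ≠ w → cls v = cls w → ¬ G.Adj v w ∧ hp v = v ∧ hp w = w
  ctwo : ∀ v ∈ cl f i, ((cl f i).filter (fun w => cls w = cls v)).card ≤ 2
  num : (((cl f i).filter (fun v => hp v = v)).image cls).card +
    (U ∪ ((cl f i).filter (fun v => hp v ≠ v)).image c0).card ≤ d + 2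
  pairs : ((cl f i).filter (fun v => cls v ≠ v)).card ≤ x + 2
  small : (cl f i).card + 1 ≤ d → ∀ v ∈ cl f i, cls v = v

/-- the vertex colouring `c` with colours from the lists `A`, injective on the classes of every
spot -/
def Good (f cls : V → V) (A : V → Finset ℕ) (c : V → ℕ) : Prop :=
  (∀ v, c v ∈ A v) ∧ ∀ v w, f v = f w → (c v = c w ↔ cls v = cls w)

/-- the vertex colouring; `a i` is the free colour of the spot `i` -/
structure VC (G : SimpleGraph V) (d x : ℕ) (f hp : V → V) (c0 g : V → ℕ) (E : Finset ℕ)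
    (c a : V → ℕ) : Prop where
  lt : ∀ v, c v < d + 2
  prop : ∀ v w, G.Adj v w → c v ≠ c w
  ext : ∀ v, hp v ≠ v → c v = c0 v
  two : ∀ i b, ((cl f i).filter (fun v => c v = b)).card ≤ 2
  rep : ∀ i, ((range (d + 2)).filter
    (fun b => ((cl f i).filter (fun v => c v = b)).card = 2)).card ≤ x + 2
  inj : ∀ i, (cl f i).card + 1 ≤ d → Set.InjOn c (cl f i : Set V)
  alt : ∀ i, a i < d + 2
  aE : ∀ i, a i ∉ E
  ag : ∀ v, hp v ≠ v → a (f v) ≠ g v
  ac : ∀ v, c v ≠ a (f v)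

/-- the first stage of the colouring of the outer edges: the edges of `Kp` have colours in `E2` -/
structure XK (G : SimpleGraph V) (d x : ℕ) (f hp : V → V) (g : V → ℕ) (E2 : Finset ℕ)
    (c : V → ℕ) (Kp : SimpleGraph V) (t : V → V → ℕ) : Prop where
  le : Kp ≤ yg G f hp
  ec : PEC Kp E2 t
  tc : ∀ v w, Kp.Adj v w → t v w ≠ c v
  tg : ∀ v w, Kp.Adj v w → hp v ≠ v → t v w ≠ g v
  load : ∀ i b, 800 ≤ (cl f i).card → 
    8 * ((cl f i).filter (fun v => ∃ w, Kp.Adj v w ∧ t v w = b)).card ≤ (cl f i).card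
  par : ∀ i, d ≤ 2 * (cl f i).card →
    2 * ((cl f i).filter (fun v => (out G f v).Nonempty)).card ≤ (cl f i).card ∨
    (E2.filter (fun b => Odd ((cl f i).filter (fun v => c v ≠ b ∧
      ¬ (hp v ≠ v ∧ f (hp v) ≠ f v ∧ g v = b) ∧ ∀ w, ¬ (Kp.Adj v w ∧ t v w = b))).card)).card +
      200 * x ≤ E2.card

/-- the colouring of all outer edges -/
structure XC (G : SimpleGraph V) (d x : ℕ) (f hp : V → V) (g : V → ℕ) (E : Finset ℕ)
    (c : V → ℕ) (t : V → V → ℕ) : Prop where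
  sym : ∀ v w, t v w = t w v
  inj : ∀ v, Set.InjOn (t v) (out G f v : Set V)
  tc : ∀ v, ∀ w ∈ out G f v, t v w ≠ c v
  th : ∀ v, hp v ≠ v → f (hp v) ≠ f v → t v (hp v) = g v
  mem : ∀ v, ∀ w ∈ out G f v, w ≠ hp v → t v w ∈ E
  tg : ∀ v, ∀ w ∈ out G f v, w ≠ hp v → hp v ≠ v → t v w ≠ g v
  load : ∀ i b, d ≤ 2 * (cl f i).card →
    8 * ((cl f i).filter (fun v => ∃ w ∈ out G f v, t v w = b)).card ≤ (cl f i).card + 16
  par : ∀ i, d ≤ 2 * (cl f i).card →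
    2 * ((cl f i).filter (fun v => (out G f v).Nonempty)).card ≤ (cl f i).card ∨
    (E.filter (fun b => Odd ((cl f i).filter (fun v => c v ≠ b ∧
      ∀ w ∈ out G f v, t v w ≠ b)).card)).card + 200 * x ≤ E.card

end defs

/-! ## Local blocks -/

/-- PM: perfect matching of `R` in a nearly complete graph. -/
def Stmt_PM : Prop :=
  ∀ {V : Type u} [Fintype V] (G : SimpleGraph V) (R : Finset V) (s : ℕ), Even R.card →
    4 * s ≤ R.card → (∀ v ∈ R, (nn G R v).card ≤ s) →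
    ∃ m : V → V, (∀ v, m (m v) = v) ∧ (∀ v, m v ≠ v ↔ v ∈ R) ∧ ∀ v ∈ R, G.Adj v (m v)

/-- COMP (from PM): rounds. The matchings `K b` are extended to matchings `M b` which cover
everything outside `X b`; the edges of `L` are used only if they are in `K`. -/
def Stmt_COMP : Prop :=
  ∀ {V : Type u} [Fintype V] (G L : SimpleGraph V) (E : Finset ℕ) (s : ℕ) (X : ℕ → Finset V)
    (K : ℕ → V → V), Mts G E K → (∀ b ∈ E, ∀ v, K b v ≠ v → L.Adj v (K b v) ∧ v ∉ X b) →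
    (∀ b ∈ E, Even (univ \ X b).card) →
    (∀ v, (nn G univ v).card + (nb L v).card + E.card ≤ s) →
    (∀ b ∈ E, (X b).card + (univ.filter (fun v => K b v ≠ v)).card + 4 * s ≤ Fintype.card V) →
    ∃ M : ℕ → V → V, Mts G E M ∧ (∀ b ∈ E, ∀ v, M b v = v ↔ v ∈ X b) ∧
      (∀ b ∈ E, ∀ v, K b v ≠ v → M b v = K b v) ∧
      ∀ b ∈ E, ∀ v, M b v ≠ v → L.Adj v (M b v) → K b v = M b v

/-- ABSA: the design `w_i w_j ↦ (i + j) / 2` for `|W| = |E|` odd. -/
def Stmt_ABSA : Prop :=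
  ∀ {V : Type u} [Fintype V] (G : SimpleGraph V) (W : Finset V) (E : Finset ℕ), Odd E.card →
    W.card = E.card →
    ∃ (μ : ℕ → V) (K : ℕ → V → V), Mts G E K ∧ (∀ b ∈ E, μ b ∈ W ∧ K b (μ b) = μ b) ∧
      Set.InjOn μ (E : Set ℕ) ∧ (∀ b ∈ E, ∀ v, K b v ≠ v → v ∈ W) ∧
      ∀ v ∈ W, ∀ w ∈ W, G.Adj v w → ∃ b ∈ E, K b v = w

/-- ABSB (Galvin between two halves of `W`, greedy inside the halves). -/
def Stmt_ABSB : Prop :=
  ∀ {V : Type u} [Fintype V] (G : SimpleGraph V) (W : Finset V) (E : Finset ℕ)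
    (Z : V → Finset ℕ) (z : ℕ), (∀ v ∈ W, (Z v).card ≤ z) →
    3 * W.card + 8 * z + 20 ≤ 2 * E.card →
    ∃ K : ℕ → V → V, Mts G E K ∧ (∀ b ∈ E, ∀ v, K b v ≠ v → v ∈ W ∧ b ∉ Z v) ∧
      ∀ v ∈ W, ∀ w ∈ W, G.Adj v w → ∃ b ∈ E, K b v = w

/-- STAR: the colours of the edges at `z` can be prescribed. -/
def Stmt_STAR : Prop :=
  ∀ {V : Type u} [Fintype V] (G : SimpleGraph V) (C : Finset ℕ) (t : V → V → ℕ) (z : V)
    (c : V → ℕ), PEC G C t → (∀ v ∈ nb G z, c v ∈ C) → Set.InjOn c (nb G z : Set V) →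
    ∃ t' : V → V → ℕ, PEC G C t' ∧ ∀ v ∈ nb G z, t' z v = c v

/-- CLEAN (from CORE and STAR): the rest graph `R` is coloured with the clean colours `Cl`. -/
def Stmt_CLEAN : Prop :=
  ∀ {V : Type u} [Fintype V] (R : SimpleGraph V) (Cl : Finset ℕ) (c : V → ℕ) (W : Finset V),
    (∀ v w, v ≠ w → c v = c w → c v ∉ Cl) →
    (∀ v, v ∉ W → (nb R v).card + (if c v ∈ Cl then 1 else 0) + 1 ≤ Cl.card) →
    (∀ v ∈ W, (nb R v).card + (if c v ∈ Cl then 1 else 0) ≤ Cl.card) →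
    (∀ v ∈ W, ∀ w ∈ W, ¬ R.Adj v w) → (∃ a ∈ Cl, ∀ v, c v ≠ a) →
    ∃ t : V → V → ℕ, PEC R Cl t ∧ ∀ v w, R.Adj v w → t v w ≠ c v

/-- SPOT (from COMP and CLEAN): rounds with misses `μ b ∈ W`, everything inside `W` absorbed. -/
def Stmt_SPOT : Prop :=
  ∀ {V : Type u} [Fintype V] (G : SimpleGraph V) (d y : ℕ) (c : V → ℕ) (F : V → Finset ℕ)
    (E : Finset ℕ) (hm : V → V) (γ : ℕ) (W : Finset V) (μ : ℕ → V) (K : ℕ → V → V),
    Spot G d c F E hm γ → (∀ v, (nn G univ v).card ≤ y) →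
    (∀ b ∈ E, (dirty c F b).card + 4 * y + 9 * E.card + 11 ≤ Fintype.card V) →
    Mts G E K → (∀ b ∈ E, ∀ v, K b v ≠ v → v ∈ W ∧ v ∉ dirty c F b) →
    (∀ v ∈ W, c v ∉ E ∧ hm v = v) → W.card ≤ E.card →
    (∀ v ∈ W, ∀ w ∈ W, G.Adj v w → ∃ b ∈ E, K b v = w) →
    (∀ b ∈ E, Odd (univ \ dirty c F b).card →
      μ b ∈ W ∧ μ b ∉ dirty c F b ∧ K b (μ b) = μ b) →
    (∀ b ∈ E, ∀ b' ∈ E, Odd (univ \ dirty c F b).card → Odd (univ \ dirty c F b').card →
      μ b = μ b' → b = b') →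
    ∃ t : V → V → ℕ, Fills G d c F hm γ t

/-- SPA (from ABSA and SPOT): few vertices with outer edges. -/
def Stmt_SPA : Prop :=
  ∀ {V : Type u} [Fintype V] (G : SimpleGraph V) (d y : ℕ) (c : V → ℕ) (F : V → Finset ℕ)
    (E : Finset ℕ) (hm : V → V) (γ : ℕ), Spot G d c F E hm γ → (∀ v, (nn G univ v).card ≤ y) →
    (∀ b ∈ E, (dirty c F b).card + 4 * y + 9 * E.card + 11 ≤ Fintype.card V) →
    Odd E.card →
    (univ.filter (fun v => (F v).Nonempty)).card + 3 * E.card + 2 ≤ Fintype.card V →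
    ∃ t : V → V → ℕ, Fills G d c F hm γ t

/-- SPB (from ABSB and SPOT): few odd rounds. -/
def Stmt_SPB : Prop :=
  ∀ {V : Type u} [Fintype V] (G : SimpleGraph V) (d y z : ℕ) (c : V → ℕ) (F : V → Finset ℕ)
    (E : Finset ℕ) (hm : V → V) (γ : ℕ), Spot G d c F E hm γ → (∀ v, (nn G univ v).card ≤ y) →
    (∀ b ∈ E, (dirty c F b).card + 4 * y + 9 * E.card + 11 ≤ Fintype.card V) →
    (∀ v, (F v).card + 1 ≤ z) →
    3 * (E.filter (fun b => Odd (univ \ dirty c F b).card)).card + 8 * z + 20 ≤ 2 * E.card →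
    ∃ t : V → V → ℕ, Fills G d c F hm γ t

/-- SP0 (from CLEAN): small spots. -/
def Stmt_SP0 : Prop :=
  ∀ {V : Type u} [Fintype V] (G : SimpleGraph V) (d : ℕ) (c : V → ℕ) (F : V → Finset ℕ)
    (E : Finset ℕ) (hm : V → V) (γ : ℕ), Spot G d c F E hm γ →
    Fintype.card V + E.card ≤ d + 1 → ∃ t : V → V → ℕ, Fills G d c F hm γ t

/-- LOC (from SPA, SPB, SP0): the local theorem. -/
def Stmt_LOC : Prop :=
  ∀ {V : Type u} [Fintype V] (G : SimpleGraph V) (d x : ℕ) (c : V → ℕ) (F : V → Finset ℕ)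
    (E : Finset ℕ) (hm : V → V) (γ a : ℕ), Loc G d x c F E hm γ a →
    ∃ t : V → V → ℕ, Fills G d c F hm γ t

/-! ## Vertex colours -/

/-- PLAN: unused colours and classes of one spot. -/
def Stmt_PLAN : Prop :=
  ∀ {V : Type u} [Fintype V] (G : SimpleGraph V) (d x : ℕ) (f hp : V → V) (c0 g : V → ℕ),
    NCtx G d x f hp c0 g → ∀ E : Finset ℕ, E.card ≤ 1000 * x → ∀ i : V,
    ∃ (U : Finset ℕ) (a : ℕ) (cls : V → V), Plan G d x f hp c0 g E i U a cls

/-- NE (Hall): injective choice from almost complete lists. -/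
def Stmt_NE : Prop :=
  ∀ {V : Type u} [Fintype V] (S : Finset V) (P : Finset ℕ) (Z : V → Finset ℕ) (m : ℕ),
    S.card ≤ P.card → (∀ s ∈ S, (Z s).card ≤ m) →
    (∀ α ∈ P, (S.filter (fun s => α ∈ Z s)).card + m ≤ P.card) →
    ∃ σ : V → ℕ, Set.InjOn σ (S : Set V) ∧ ∀ s ∈ S, σ s ∈ P ∧ σ s ∉ Z s

/-- LSW (from AL): lopsided local lemma with switchings of two colours in a spot. -/
def Stmt_LSW : Prop :=
  ∀ {V : Type u} [Fintype V] (X : SimpleGraph V) (k q x : ℕ) (f cls : V → V)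
    (A : V → Finset ℕ) (Fr : Finset V), (∀ v w, X.Adj v w → f v ≠ f w) →
    (∀ v, (nb X v).card ≤ x) → (∀ v w, cls v = cls w → f v = f w) →
    (∀ v, (univ.filter (fun w => cls w = cls v)).card ≤ 2) → (∀ i, (cl f i).card ≤ 2 * k) →
    (∀ v, ∀ b ∈ A v, b < k) →
    (∀ v ∈ Fr, ∀ α ∈ A v, ((cl f (f v)).filter (fun z => α ∉ A z)).card + q ≤
      ((range k).filter (fun β => ∀ z, cls z = cls v → β ∈ A z)).card) →
    0 < q → 200 * k * x ≤ q ^ 2 → (∃ c : V → ℕ, Good f cls A c) →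
    ∃ c : V → ℕ, Good f cls A c ∧ ∀ v ∈ Fr, ∀ w ∈ Fr, X.Adj v w → c v ≠ c w

/-- VCOL (from PLAN, NE, LSW): the vertex colouring. -/
def Stmt_VCOL : Prop :=
  ∀ {V : Type u} [Fintype V] (G : SimpleGraph V) (d x : ℕ) (f hp : V → V) (c0 g : V → ℕ),
    NCtx G d x f hp c0 g → ∀ E : Finset ℕ, E.card ≤ 1000 * x →
    ∃ c a : V → ℕ, VC G d x f hp c0 g E c a

/-! ## Outer edges -/

/-- CUT: two types of spots. -/
def Stmt_CUT : Prop :=
  ∀ {V : Type u} [Fintype V] (Y : SimpleGraph V) (f : V → V), (∀ v w, Y.Adj v w → f v ≠ f w) →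
    ∃ τ : V → Bool, ∀ i,
      ((univ : Finset (V × V)).filter (fun p => Y.Adj p.1 p.2 ∧ f p.1 = i)).card ≤
      2 * ((univ : Finset (V × V)).filter
        (fun p => Y.Adj p.1 p.2 ∧ f p.1 = i ∧ τ (f p.2) ≠ τ i)).card

/-- OWN (Hall): every spot of `B` gets `m` edges to spots of the other type. -/
def Stmt_OWN : Prop :=
  ∀ {V : Type u} [Fintype V] (Y : SimpleGraph V) (f : V → V) (τ : V → Bool) (m : ℕ)
    (B : Finset V), (∀ i ∈ B, 2 * m ≤ ((univ : Finset (V × V)).filter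
      (fun p => Y.Adj p.1 p.2 ∧ f p.1 = i ∧ τ (f p.2) ≠ τ i)).card) →
    ∃ o : V → Fin m → V × V,
      (∀ i ∈ B, ∀ a, Y.Adj (o i a).1 (o i a).2 ∧ f (o i a).1 = i ∧ τ (f (o i a).2) ≠ τ i) ∧
      ∀ i ∈ B, ∀ a, ∀ j ∈ B, ∀ b,
        s((o i a).1, (o i a).2) = s((o j b).1, (o j b).2) → i = j ∧ a = b

/-- GRS: greedy colouring of items with conflicts and with caps in groups. -/
def Stmt_GRS : Prop :=
  ∀ {ι : Type u} [Fintype ι] {β : Type u} (cf : ι → ι → Prop) (p q : ι → β) (s : β → ℕ)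
    (Q a m : ℕ) (P : Finset ℕ) (Z : ι → Finset ℕ), (∀ i j, cf i j → cf j i) →
    (∀ i, (univ.filter (fun j => cf i j)).card ≤ a) → (∀ i, (Z i).card ≤ m) →
    (∀ j, 1 ≤ s j) → (∀ j, (univ.filter (fun i => p i = j ∨ q i = j)).card ≤ Q * s j) →
    a + m + 2 * Q < P.card →
    ∃ t : ι → ℕ, (∀ i, t i ∈ P ∧ t i ∉ Z i) ∧ (∀ i j, i ≠ j → cf i j → t i ≠ t j) ∧
      ∀ j b, (univ.filter (fun i => (p i = j ∨ q i = j) ∧ t i = b)).card ≤ s j

/-- XKEEP (from CUT, OWN, GRS): first stage, parities by ownership. -/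
def Stmt_XKEEP : Prop :=
  ∀ {V : Type u} [Fintype V] (G : SimpleGraph V) (d x : ℕ) (f hp : V → V) (c0 g c : V → ℕ),
    NCtx G d x f hp c0 g → (∀ v w, G.Adj v w → c v ≠ c w) → (∀ v, hp v ≠ v → c v = c0 v) →
    ∃ (Kp : SimpleGraph V) (t : V → V → ℕ),
      XK G d x f hp g (Ico (20 * x + 5) (460 * x + 15)) c Kp t

/-- XREST (from GRS): all other outer edges get colours less than `20 x + 5`. -/
def Stmt_XREST : Prop :=
  ∀ {V : Type u} [Fintype V] (G : SimpleGraph V) (d x : ℕ) (f hp : V → V) (c0 g c : V → ℕ)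
    (Kp : SimpleGraph V) (t : V → V → ℕ), NCtx G d x f hp c0 g →
    (∀ v w, G.Adj v w → c v ≠ c w) → (∀ v, hp v ≠ v → c v = c0 v) →
    XK G d x f hp g (Ico (20 * x + 5) (460 * x + 15)) c Kp t →
    ∃ t' : V → V → ℕ, XC G d x f hp g (range (460 * x + 15)) c t'

/-! ## The theorem -/

/-- MAIN (from VCOL, XKEEP, XREST, LOC). -/
def Stmt_MAIN : Prop :=
  ∀ {V : Type u} [Fintype V] (G : SimpleGraph V) (d x : ℕ) (f hp : V → V) (c0 g : V → ℕ),
    NCtx G d x f hp c0 g →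
    ∃ (c : V → ℕ) (t : V → V → ℕ), (∀ v, c v < d + 2) ∧ (∀ v w, G.Adj v w → c v ≠ c w) ∧
      (∀ v w, t v w = t w v) ∧ (∀ v w, G.Adj v w → t v w < d + 2 ∧ t v w ≠ c v) ∧
      (∀ v, Set.InjOn (t v) (nb G v : Set V)) ∧
      ∀ v, hp v ≠ v → c v = c0 v ∧ t v (hp v) = g v

/-- FIN (from MAIN): the theorem. -/
def Stmt_FIN : Prop :=
  ∃ (ε : ℝ) (D₀ : ℕ), 0 < ε ∧ ∀ (V : Type u) [Fintype V] (G : SimpleGraph V)
    [DecidableRel G.Adj] (f : V → ℕ) (k : ℕ), D₀ ≤ G.maxDegree → G.maxDegree + 2 ≤ k →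
    (∀ v, ((univ.filter (fun w => f w = f v ∧ w ≠ v ∧ ¬ G.Adj v w)).card : ℝ) ≤
      ε * G.maxDegree) →
    (∀ v, ((univ.filter (fun w => f w ≠ f v ∧ G.Adj v w)).card : ℝ) ≤ ε * G.maxDegree) →
    ∀ H : G.Subgraph, IsDistThreeMatching H → EveryTotalColoringExtends H (Fin k)

end Pool.Agent.Work.MP_db9399_nc
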